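import Mathlib
import Pool.Agent.H55.Strip2

open scoped NNReal ENNReal

namespace Pool.Agent.Results.MP_2d1133_lc.NoSuchSet

theorem general (E : Set (EuclideanSpace ℝ (Fin 2))) (hE : 1 < dimH E) (r : ℝ≥0)
    (hr : 2 * (r : ℝ≥0∞) < dimH E) :
    ∃ f : EuclideanSpace ℝ (Fin 2) → ℝ, Continuous f ∧ (r : ℝ≥0∞) < dimH (f '' E) := by
  let e : EuclideanSpace ℝ (Fin 2) ≃L[ℝ] ℝ × ℝ :=
    (EuclideanSpace.equiv (Fin 2) ℝ).trans (ContinuousLinearEquiv.finTwoArrow ℝ ℝ)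
  obtain ⟨f, hf, h⟩ := Pool.Agent.H55.Strip.main (e '' E) (by rw [e.dimH_image]; exact hE) r
    (by rw [e.dimH_image]; exact hr)
  exact ⟨f ∘ e, hf.comp e.continuous, by rw [Set.image_comp]; exact h⟩

theorem result :
    (∀ s : ℝ≥0, 0 < s → s < 1 → ¬ ∃ E : Set (EuclideanSpace ℝ (Fin 2)),
      dimH E = 1 + (s : ℝ≥0∞) ∧
      ∀ f : EuclideanSpace ℝ (Fin 2) → ℝ, Continuous f → dimH (f '' E) ≤ (s : ℝ≥0∞)) ∧
    (∀ E : Set (EuclideanSpace ℝ (Fin 2)), 1 < dimH E → ∀ r : ℝ≥0, 2 * (r : ℝ≥0∞) < dimH E →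
      ∃ f : EuclideanSpace ℝ (Fin 2) → ℝ, Continuous f ∧ (r : ℝ≥0∞) < dimH (f '' E)) := by
  refine ⟨?_, general⟩
  rintro s hs0 hs1 ⟨E, hE, h⟩
  obtain ⟨f, hf, h2⟩ := general E (by
      rw [hE]
      have : (1 : ℝ≥0) < 1 + s := lt_add_of_pos_right _ hs0
      exact_mod_cast this) s (by
      rw [hE]
      have : 2 * s < 1 + s := by rw [two_mul]; gcongr
      exact_mod_cast this)
  exact absurd (h f hf) (not_le.mpr h2)

end Pool.Agent.Results.MP_2d1133_lc.NoSuchSet
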